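import Pool.Agent.ASB.Main
import Pool.Agent.AST.LZQ

/-!
THEOREM A*^B (note 1951): prime symbols of a group valued structure.
-/

set_option autoImplicit false

namespace Pool.Agent.ASB

open Pool.Agent.ETG Pool.Agent.RFN Pool.Agent.AST Pool.Agent.RFT

section
variable {V B : Type} [AddCommGroup V] [Module (ZMod 2) V] [AddCommGroup B] [Module (ZMod 2) B]

/-- `c` is a prime symbol: if `c` is a value of `q` on a plane `P` (in `Q_x + Q_y`), then it is a
value of `q (p, -)` for a point `p` of `P` -/
def PrimeSym (q : V →ₗ[ZMod 2] V →ₗ[ZMod 2] B) (c : B) : Prop :=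
  ∀ x y u v, q x u + q y v = c →
    (∃ w, q x w = c) ∨ (∃ w, q y w = c) ∨ ∃ w, q (x + y) w = c

/-- two-value linkage -/
theorem two_value {q : V →ₗ[ZMod 2] V →ₗ[ZMod 2] B} (hq : LinkedAlt q) {x y u v w : V}
    (h : q (x + y) w = q x u + q y v) : ∃ s, q x s = q x u ∧ q y s = q y v := by
  have e : q y (u + v) = q (x + y) (u + w) := by
    rw [map_add (q (x + y)), h]
    simp only [map_add, LinearMap.add_apply]
    rw [add_add_add_comm (q x u), self_add, zero_add]
  obtain ⟨s, h1, h2⟩ := hq.link _ _ _ _ e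
  have h3 : q x s = 0 := by
    have h4 : q (x + y) s = q y s := by
      rw [h2, h1]
    rw [map_add, LinearMap.add_apply] at h4
    exact add_eq_right.1 h4
  refine ⟨u + s, by rw [map_add, h3, add_zero], ?_⟩
  rw [map_add, h1, map_add, ← add_assoc, self_add, zero_add]

theorem eqq_iff {q : V →ₗ[ZMod 2] V →ₗ[ZMod 2] B} (hq : LinkedAlt q) {c : B}
    (hc : PrimeSym q c) (a b d e : V) :
    EqQ (fun x y => q x y = 0 ∨ q x y = c) a b d e ↔ q a b + q d e = 0 ∨ q a b + q d e = c := by
  have hcc : c + c = 0 := self_add c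
  constructor
  · rintro ⟨x, h1, h2, h3⟩
    have h4 : q a b + q d e = q a (b + x) + q d (e + x) + q (a + d) x := by
      simp only [map_add, LinearMap.add_apply]
      have : q a b + q a x + (q d e + q d x) + (q a x + q d x) =
          q a b + q d e + (q a x + q a x) + (q d x + q d x) := by abel
      rw [this, self_add, self_add, add_zero, add_zero]
    rw [h4]
    rcases h1 with h1 | h1 <;> rcases h2 with h2 | h2 <;> rcases h3 with h3 | h3 <;>
      rw [h1, h2, h3] <;> simp [hcc]
  · have hlink : ∀ u v, q a u = q d v → ∃ s, q a s = q a u ∧ q d s = q a u := by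
      intro u v h
      obtain ⟨s, h1, h2⟩ := hq.link _ _ _ _ h
      exact ⟨s, h1, h2⟩
    rintro (h | h)
    · have h0 : q a b = q d e := eq_iff_add.2 h
      obtain ⟨s, h1, h2⟩ := hlink b e h0
      refine ⟨s, Or.inl ?_, Or.inl ?_, Or.inl ?_⟩
      · rw [map_add, h1, self_add]
      · rw [map_add, h2, h0, self_add]
      · rw [map_add, LinearMap.add_apply, h1, h2, self_add]
    · rcases hc a d b e h with ⟨u, hu⟩ | ⟨u, hu⟩ | ⟨u, hu⟩
      · have h0 : q a (b + u) = q d e := by
          rw [map_add, hu, ← h, ← add_assoc, self_add, zero_add]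
        obtain ⟨s, h1, h2⟩ := hlink (b + u) e h0
        refine ⟨s, Or.inr ?_, Or.inl ?_, Or.inl ?_⟩
        · rw [map_add, h1, map_add, ← add_assoc, self_add, zero_add, hu]
        · rw [map_add, h2, h0, self_add]
        · rw [map_add, LinearMap.add_apply, h1, h2, self_add]
      · have h0 : q a b = q d (e + u) := by
          rw [map_add, hu, ← h, add_comm (q a b), ← add_assoc, self_add, zero_add]
        obtain ⟨s, h1, h2⟩ := hlink b (e + u) h0
        refine ⟨s, Or.inl ?_, Or.inr ?_, Or.inl ?_⟩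
        · rw [map_add, h1, self_add]
        · rw [map_add, h2, h0, map_add, ← add_assoc, self_add, zero_add, hu]
        · rw [map_add, LinearMap.add_apply, h1, h2, self_add]
      · obtain ⟨s, h1, h2⟩ := two_value hq (hu.trans h.symm)
        refine ⟨s, Or.inl ?_, Or.inl ?_, Or.inr ?_⟩
        · rw [map_add, h1, self_add]
        · rw [map_add, h2, self_add]
        · rw [map_add, LinearMap.add_apply, h1, h2, h]

/-- the quotient by a prime symbol is linked -/
theorem lz_prime {q : V →ₗ[ZMod 2] V →ₗ[ZMod 2] B} (hq : LinkedAlt q) {c : B}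
    (hc : PrimeSym q c) : LZ (fun x y => q x y = 0 ∨ q x y = c) := by
  have hcc : c + c = 0 := self_add c
  have hsum : ∀ x y : B, (x = 0 ∨ x = c) → (y = 0 ∨ y = c) → x + y = 0 ∨ x + y = c := by
    rintro x y (rfl | rfl) (rfl | rfl) <;> simp [hcc]
  refine ⟨fun a b h => ?_, fun a => Or.inl (map_zero _), fun a b d h h' => ?_,
    fun a => Or.inl (hq.alt a), ?_⟩
  · rw [hq.symm b a]
    exact h
  · rw [map_add]
    exact hsum _ _ h h'
  · intro a b d e a' b' h1 h2
    rw [eqq_iff hq hc] at h1 h2 ⊢
    have h3 := hsum _ _ h1 h2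
    have h4 : q a b + q d e + (q d e + q a' b') = q a b + q a' b' := by
      rw [add_assoc, ← add_assoc (q d e), self_add, zero_add]
    rw [h4] at h3
    exact h3

/-- prime symbols of a group valued structure -/
theorem lz_zc {q : V →ₗ[ZMod 2] V →ₗ[ZMod 2] B} (hq : LinkedAlt q) {a b : V}
    (hc : PrimeSym q (q a b)) : LZ (ZC (Zq q) a b) := by
  have h : ZC (Zq q) a b = fun x y => q x y = 0 ∨ q x y = q a b := by
    funext x y
    apply propext
    unfold ZC
    rw [(LZQ V B q hq).2]
    rfl
  rw [h]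
  exact lz_prime hq hc

/-- Theorem A*^B for a group valued structure -/
theorem asb_prime [Finite V] {q : V →ₗ[ZMod 2] V →ₗ[ZMod 2] B} (hq : LinkedAlt q)
    (hsm : Smaller V) {a b : V} (h0 : q a b ≠ 0) (hc : PrimeSym q (q a b))
    (hE : ETZ (fun x y => q x y = 0 ∨ q x y = q a b)) : ETZ (Zq q) := by
  have h : ZC (Zq q) a b = fun x y => q x y = 0 ∨ q x y = q a b := by
    funext x y
    apply propext
    unfold ZC
    rw [(LZQ V B q hq).2]
    rfl
  refine asb (LZQ V B q hq).1 hsm (a := a) (b := b) h0 (lz_zc hq hc) ?_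
  rw [h]
  exact hE

end

end Pool.Agent.ASB
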