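import Pool.Agent.AST.SBAS
import Pool.Agent.ETC.QSat2

/-!
THEOREM A*^B (note 1951), set valued core.

`D : QData V Q` is a linked set valued structure with `-1 = 1` on the finite `F_2`-space `V`,
`c ≠ 0` a value.  `Zc x y` is the relation `q (x, y) ∈ {0, c}`.
-/

set_option autoImplicit false

namespace Pool.Agent.ASB

open Pool.Agent.RFT Pool.Agent.AST
open Pool.Agent.Helper58.PLine (QData)

variable {V Q : Type} [AddCommGroup V] [Module (ZMod 2) V]

/-- `q (x, y) ∈ {0, c}` -/
def Zc (D : QData V Q) (c : Q) (x y : V) : Prop := D.q x y = D.z ∨ D.q x y = c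

/-- `c` is a value of `q (x, -)` -/
def InC (D : QData V Q) (c : Q) (x : V) : Prop := ∃ v, D.q x v = c

/-- no element of rank at most one -/
def R1 (D : QData V Q) : Prop :=
  ∀ x, (∀ v w, D.q x v = D.z ∨ D.q x w = D.z ∨ D.q x (v + w) = D.z) → x = 0

section

variable {D : QData V Q} {c : Q}

theorem eq_c_add {x v w : V} (hv : D.q x v = c) (hw : D.q x w = c) : D.q x (v + w) = D.z :=
  (dq D).1 (hv.trans hw.symm)

theorem c_add {x v w : V} (hv : D.q x v = c) (hw : D.q x w = D.z) : D.q x (v + w) = c := by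
  rw [dq_add D hw, hv]

theorem c_add' {x y v : V} (hv : D.q x v = c) (hw : D.q y v = D.z) : D.q (x + y) v = c := by
  rw [dq_add' D hw, hv]

theorem Zc.symm {x y : V} (h : Zc D c x y) : Zc D c y x := by
  rcases h with h | h
  · exact Or.inl (by rw [D.symm, h])
  · exact Or.inr (by rw [D.symm, h])

theorem Zc.add {x v w : V} (h : Zc D c x v) (h' : Zc D c x w) : Zc D c x (v + w) := by
  rcases h with h | h <;> rcases h' with h' | h'
  · exact Or.inl (dadd D h h')
  · right
    rw [add_comm]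
    exact c_add h' h
  · exact Or.inr (c_add h h')
  · exact Or.inl (eq_c_add h h')

theorem Zc.add' {x v w : V} (h : Zc D c v x) (h' : Zc D c w x) : Zc D c (v + w) x :=
  (h.symm.add h'.symm).symm

/-- Saturation: if all `x` with `χ x = 1` have the value `c`, then there is an element of rank
one. -/
theorem rank_one_of [Finite V] (hr : R1 D) (hc : c ≠ D.z) {χ : V →ₗ[ZMod 2] ZMod 2} {x0 : V}
    (h0 : χ x0 = 1) (h : ∀ x, χ x = 1 → InC D c x) : False := by
  classical
  let α : V → Q := fun x => if χ x = 1 then c else D.z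
  have hα1 : ∀ x, χ x = 1 → α x = c := fun x hx => if_pos hx
  have hα0 : ∀ x, χ x = 0 → α x = D.z := fun x hx => if_neg (by rw [hx]; exact zero_ne_one)
  have hp : ETC.Pairwise2 D α := by
    intro x x'
    rcases z2 (χ x) with h1 | h1 <;> rcases z2 (χ x') with h2 | h2
    · have h3 : χ (x + x') = 0 := by rw [map_add, h1, h2, add_zero]
      exact ⟨0, by rw [hα0 x h1, dz], by rw [hα0 x' h2, dz], by rw [hα0 _ h3, dz]⟩
    · have h3 : χ (x + x') = 1 := by rw [map_add, h1, h2, zero_add]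
      obtain ⟨v, hv⟩ := h _ h2
      obtain ⟨w, hw⟩ := h _ h3
      obtain ⟨s, e1, e2⟩ := dlink D hv hw
      refine ⟨s, ?_, by rw [hα1 x' h2, e1], by rw [hα1 _ h3, e2]⟩
      rw [hα0 x h1]
      have e3 := (dq' D).1 (e1.trans e2.symm)
      rw [add_comm x x', ← add_assoc, self_add, zero_add] at e3
      exact e3.symm
    · have h3 : χ (x + x') = 1 := by rw [map_add, h1, h2, add_zero]
      obtain ⟨v, hv⟩ := h _ h1
      obtain ⟨w, hw⟩ := h _ h3
      obtain ⟨s, e1, e2⟩ := dlink D hv hw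
      refine ⟨s, by rw [hα1 x h1, e1], ?_, by rw [hα1 _ h3, e2]⟩
      rw [hα0 x' h2]
      have e3 := (dq' D).1 (e1.trans e2.symm)
      rw [← add_assoc, self_add, zero_add] at e3
      exact e3.symm
    · have h3 : χ (x + x') = 0 := by
        rw [map_add, h1, h2]
        decide
      obtain ⟨v, hv⟩ := h _ h1
      obtain ⟨w, hw⟩ := h _ h2
      obtain ⟨s, e1, e2⟩ := dlink D hv hw
      refine ⟨s, by rw [hα1 x h1, e1], by rw [hα1 x' h2, e2], ?_⟩
      rw [hα0 _ h3]
      exact ((dq' D).1 (e1.trans e2.symm)).symm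
  obtain ⟨t, ht⟩ := ETC.saturation hp
  have hv : ∀ v, D.q t v = D.z ∨ D.q t v = c := by
    intro v
    rcases z2 (χ v) with h1 | h1
    · left
      rw [D.symm, ← ht, hα0 v h1]
    · right
      rw [D.symm, ← ht, hα1 v h1]
  have ht0 : t = 0 := by
    apply hr
    intro v w
    rcases hv v with h1 | h1
    · exact Or.inl h1
    · rcases hv w with h2 | h2
      · exact Or.inr (Or.inl h2)
      · exact Or.inr (Or.inr (eq_c_add h1 h2))
  have h1 := ht x0
  rw [hα1 x0 h0, ht0, dz] at h1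
  exact hc h1

/-- Every functional vanishes on some `V_x`. -/
theorem exists_fun [Finite V] (hnd : ∀ x, (∀ v, D.q x v = D.z) → x = 0)
    (φ : V →ₗ[ZMod 2] ZMod 2) : ∃ x, ∀ v, D.q x v = D.z → φ v = 0 := by
  classical
  let w : V → V →ₗ[ZMod 2] V := fun _ => LinearMap.id
  have hw : ETC.Fam D w := ⟨fun x x' => ⟨LinearMap.id, fun η => ⟨rfl, rfl, rfl⟩⟩⟩
  have hL : ∀ η η', ETC.LkQ D w η η' := by
    intro η η' x x' h
    change D.q x η = D.q x' η' at h
    obtain ⟨t, e1, e2⟩ := dlink D (a := η) (b := x) (c := η') (d := x') (s := D.q x η)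
      (D.symm _ _) (by rw [h, D.symm])
    refine ⟨t, ?_, ?_⟩
    · change D.q t η = D.q x η
      rw [D.symm, e1]
    · change D.q t η' = D.q x η
      rw [D.symm, e2]
  let G : Submodule (ZMod 2) (V →ₗ[ZMod 2] ZMod 2) :=
    { carrier := {χ | ∃ x, ∀ η ∈ ETC.Vx D w x, χ η = 0}
      add_mem' := fun h₁ h₂ => ETC.closureQ hw hL h₁ h₂
      zero_mem' := ⟨0, fun η _ => rfl⟩
      smul_mem' := by
        rintro a χ ⟨x, h⟩
        exact ⟨x, fun η hη => by rw [LinearMap.smul_apply, h η hη, smul_zero]⟩ }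
  by_contra hφ
  have hφG : φ ∉ G := by
    rintro ⟨x, h⟩
    exact hφ ⟨x, fun v hv => h v hv⟩
  obtain ⟨F, hF1, hF2⟩ := ETC.exists_dual_sep hφG
  obtain ⟨y, rfl⟩ := (Module.evalEquiv (ZMod 2) V).surjective F
  -- `y ≠ 0` is killed by all functionals of `G`
  have hy0 : y ≠ 0 := by
    rintro rfl
    simp at hF1
  have : ¬ ∀ v, D.q y v = D.z := fun h => hy0 (hnd y h)
  push Not at this
  obtain ⟨x, hx⟩ := this
  have hy : y ∉ (ETC.Vx D w x : Submodule (ZMod 2) V) := by
    intro h
    rw [ETC.mem_Vx] at h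
    change D.q x y = D.z at h
    rw [D.symm] at h
    exact hx h
  obtain ⟨f, hf1, hf2⟩ := ETC.exists_dual_sep hy
  have hfG : f ∈ G := ⟨x, fun η hη => hf2 η hη⟩
  have := hF2 f hfG
  change f y = 0 at this
  rw [this] at hf1
  exact zero_ne_one hf1

end

end Pool.Agent.ASB
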