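import Pool.Agent.ASB.Prod
import Pool.Agent.AST.RED
import Pool.Agent.AST.OSS
import Pool.Agent.AST.SPL
import Pool.Agent.ETG.QRD
import Pool.Agent.REG10.FN.Basic

/-!
THEOREM A*^B (note 1951): if a finite linked structure `S` with `-1 = 1` has a value `c ≠ 0` such
that `S/c` is linked and of elementary type, and all smaller structures are of elementary type,
then `S` is of elementary type.  No group structure on the values is used.
-/

set_option autoImplicit false

namespace Pool.Agent.ASB

open scoped BigOperators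
open Pool.Agent.ETG Pool.Agent.RFN Pool.Agent.AST Pool.Agent.RFT
open Pool.Agent.Helper58.PLine (QData)

section
variable {V : Type} [AddCommGroup V] [Module (ZMod 2) V]

/-- the relation of the quotient `S/c`, where `c = q (a, b)`: `q (x, y) ∈ {0, c}` -/
def ZC (Z : V → V → Prop) (a b x y : V) : Prop := Z x y ∨ EqQ Z x y a b

theorem card_lt [Finite V] (A : Submodule (ZMod 2) V) {v : V} (hv : v ∉ A) :
    Nat.card A < Nat.card V := by
  classical
  have := Fintype.ofFinite V
  rw [Nat.card_eq_fintype_card, Nat.card_eq_fintype_card]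
  refine Fintype.card_lt_of_injective_of_notMem (Subtype.val : A → V)
    Subtype.val_injective (b := v) ?_
  rintro ⟨w, rfl⟩
  exact hv w.2

/-- the restriction to a direct factor is linked -/
theorem lz_factor {Z : V → V → Prop} (hZ : LZ Z) (U : Submodule (ZMod 2) V) (π : V → V)
    (h1 : ∀ v, π v ∈ U) (h2 : ∀ u ∈ U, ∀ v, Z u (v + π v)) : LZ (ZR Z U) := by
  have heq : ∀ a b c d : U, EqQ (ZR Z U) a b c d ↔ EqQ Z (a : V) (b : V) (c : V) (d : V) := by
    intro a b c d
    constructor
    · rintro ⟨x, e1, e2, e3⟩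
      exact ⟨x, e1, e2, e3⟩
    · rintro ⟨x, e1, e2, e3⟩
      have key : ∀ u : V, u ∈ U → ∀ w, Z u (w + x) → Z u (w + π x) := by
        intro u hu w hw
        have h3 := hZ.add _ _ _ hw (h2 u hu x)
        have h4 : w + x + (x + π x) = w + π x := by
          rw [add_assoc, ← add_assoc x, self_add, zero_add]
        rw [h4] at h3
        exact h3
      refine ⟨⟨π x, h1 x⟩, key a a.2 b e1, key c c.2 d e2, ?_⟩
      have h5 := key (a + c) (U.add_mem a.2 c.2) 0 (by rw [zero_add]; exact e3)
      rw [zero_add] at h5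
      exact h5
  refine ⟨fun a b => hZ.symm _ _, fun a => hZ.zero _, fun a b c => hZ.add _ _ _,
    fun a => hZ.alt _, ?_⟩
  intro a b c d a' b' e1 e2
  rw [heq] at e1 e2 ⊢
  exact hZ.trans _ _ _ _ _ _ e1 e2

/-- a linked structure that is a product is of elementary type if the smaller ones are -/
theorem et_of_proj [Finite V] {Z : V → V → Prop} (hZ : LZ Z) (hsm : Smaller V)
    (p : V →ₗ[ZMod 2] V) (idem : ∀ v, p (p v) = p v) (hp : ∃ v, p v ≠ 0)
    (hp' : ∃ v, v ≠ 0 ∧ p v = 0) (hcomm : ∀ v w, Z (p v) (w + p w))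
    (hprod : ∀ a b, Z a b ↔ Z (p a) (p b) ∧ Z (a + p a) (b + p b)) : ETZ Z := by
  set A := LinearMap.range p with hA
  set A' := LinearMap.ker p with hA'
  have mA : ∀ v, p v ∈ A := fun v => ⟨v, rfl⟩
  have mA' : ∀ v, v + p v ∈ A' := fun v => by
    rw [hA', LinearMap.mem_ker, map_add, idem, self_add]
  have pA : ∀ a : V, a ∈ A → p a = a := by
    rintro _ ⟨v, rfl⟩
    exact idem v
  have pA' : ∀ a : V, a ∈ A' → p a = 0 := fun a ha => LinearMap.mem_ker.1 ha
  have l1 : LZ (ZR Z A) := lz_factor hZ A p mA fun u hu v => by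
    have h1 := hcomm u v
    rw [pA u hu] at h1
    exact h1
  have l2 : LZ (ZR Z A') := lz_factor hZ A' (fun v => v + p v) mA' fun u hu v => by
    have h1 := hZ.symm _ _ (hcomm v u)
    rw [pA' u hu, add_zero] at h1
    rw [← add_assoc, self_add, zero_add]
    exact h1
  obtain ⟨v1, hv1⟩ := hp
  obtain ⟨v2, hv2, hv2'⟩ := hp'
  have c1 : Nat.card A < Nat.card V := card_lt A (v := v2) fun h => hv2 (by
    rw [← pA v2 h, hv2'])
  have c2 : Nat.card A' < Nat.card V := card_lt A' (v := v1) fun h => hv1 (pA' v1 h)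
  let e : V ≃+ A × A' :=
    { toFun := fun v => (⟨p v, mA v⟩, ⟨v + p v, mA' v⟩)
      invFun := fun x => (x.1 : V) + (x.2 : V)
      left_inv := by
        intro v
        exact split_eq (p := p) v
      right_inv := by
        rintro ⟨⟨a, ha⟩, ⟨b, hb⟩⟩
        have e1 : p (a + b) = a := by rw [map_add, pA a ha, pA' b hb, add_zero]
        ext
        · exact e1
        · show a + b + p (a + b) = b
          rw [e1, add_comm a b, add_assoc, self_add, add_zero]
      map_add' := by
        intro x y
        ext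
        · show p (x + y) = p x + p y
          rw [map_add]
        · show x + y + p (x + y) = x + p x + (y + p y)
          rw [map_add]
          exact add_add_add_comm x y (p x) (p y) }
  refine qpr_proof qex_proof qis_proof V A A' Z (ZR Z A) (ZR Z A') e l1 l2 ?_
    (hsm A _ l1 c1) (hsm A' _ l2 c2)
  intro a b
  exact hprod a b

/-- **Theorem A*^B.** -/
theorem asb [Finite V] {Z : V → V → Prop} (hZ : LZ Z) (hsm : Smaller V) {a b : V}
    (hab : ¬ Z a b) (hP : LZ (ZC Z a b)) (hE : ETZ (ZC Z a b)) : ETZ Z := by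
  by_contra hET
  obtain ⟨hr1, hrg⟩ := RED V Z hZ hsm hET
  have hz : ∀ a b, (dat hZ).q a b = (dat hZ).z ↔ Z a b := dat_zero hZ
  have heq : ∀ a b c d, (dat hZ).q a b = (dat hZ).q c d ↔ EqQ Z a b c d := dat_eq hZ
  generalize dat hZ = D at hz heq
  have hc0 : D.q a b ≠ D.z := fun h => hab ((hz a b).1 h)
  have hZc : ∀ x y, Zc D (D.q a b) x y ↔ ZC Z a b x y := fun x y => by
    unfold Zc ZC
    rw [hz, heq]
  generalize D.q a b = c at hc0 hZc
  have hr : R1 D := fun x hx => hr1 x fun v w => by
    rw [← hz, ← hz, ← hz]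
    exact hx v w
  have dalt : ∀ x, D.q x x = D.z := fun x => (hz x x).2 (hZ.alt x)
  have hnd : ∀ x, (∀ v, Zc D c x v) → x = 0 := by
    intro x hx
    apply hr
    intro v w
    rcases hx v with h1 | h1
    · exact Or.inl h1
    · rcases hx w with h2 | h2
      · exact Or.inr (Or.inl h2)
      · exact Or.inr (Or.inr (eq_c_add h1 h2))
  have hfun : ∀ φ : V →ₗ[ZMod 2] ZMod 2, ∃ x, ∀ v, Zc D c x v → φ v = 0 := by
    intro φ
    obtain ⟨x, hx⟩ := exists_fun (D := dat hP) (fun x hx => hnd x fun v =>
      (hZc x v).2 ((dat_zero hP x v).1 (hx v))) φ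
    exact ⟨x, fun v hv => hx v ((dat_zero hP x v).2 ((hZc x v).1 hv))⟩
  obtain ⟨k, C, hC⟩ := OSS V _ hP hE
  have hrad : ∀ v, v + ∑ j, C.p j v = 0 := fun v => hnd _ fun w => (hZc _ _).2 (C.rad v w)
  rcases k with _ | _ | k
  · have h0 : ∀ v : V, v = 0 := fun v => by simpa using hrad v
    apply hab
    rw [h0 b]
    exact hZ.zero a
  · have h1 : ∀ v, C.p 0 v = v := by
      intro v
      have h2 : v + C.p 0 v = 0 := by simpa using hrad v
      exact (eq_iff_add.2 h2).symm
    rcases hC 0 with hl | ⟨t, ht1, ht2, ht3⟩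
    · have hin : ∀ x, x ≠ 0 → InC D c x := by
        intro x hx
        by_contra hcon
        apply hx
        apply hr
        intro v w
        have h3 := hl x v w
        rw [h1] at h3
        have hh : ∀ y, ZC Z a b x y → D.q x y = D.z := fun y hy =>
          ((hZc x y).2 hy).resolve_right fun h => hcon ⟨y, h⟩
        rcases h3 with h | h | h
        · exact Or.inl (hh _ h)
        · exact Or.inr (Or.inl (hh _ h))
        · exact Or.inr (Or.inr (hh _ h))
      have hb : b ≠ 0 := by
        rintro rfl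
        exact hab (hZ.zero a)
      obtain ⟨f, hf1, -⟩ := ETC.exists_dual_sep (p := (⊥ : Submodule (ZMod 2) V)) (x := b)
        (by rwa [Submodule.mem_bot])
      refine rank_one_of hr hc0 hf1 fun x hx => hin x ?_
      rintro rfl
      rw [map_zero] at hx
      exact zero_ne_one hx
    · obtain ⟨v, hv, hv0, hvt⟩ := hrg t ht2
      rcases ht3 v (by rw [h1]; exact Or.inl hv) with h | h
      · rw [h1] at h
        exact hv0 h
      · rw [h1] at h
        exact hvt h
  · have hS : Spl D c (C.p 0) := ⟨dalt, hc0, C.idem 0,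
      fun v w => (hZc _ _).2 (C.perp 0 v w),
      fun v w h => (hZc _ _).2 (C.ind v w ((hZc _ _).1 h) 0)⟩
    apply hET
    refine et_of_proj hZ hsm (C.p 0) (C.idem 0) (C.ne 0) ?_ (fun v w => ?_) fun x y => ?_
    · obtain ⟨v, hv⟩ := C.ne 1
      exact ⟨C.p 1 v, hv, C.orth 0 1 (by simp) v⟩
    · exact (hz _ _).1 (hS.comm hfun v w)
    · rw [← hz, ← hz, ← hz]
      exact hS.prod hr hfun x y

theorem eqq_self {Z : V → V → Prop} (hZ : LZ Z) (a b : V) : EqQ Z a b a b := by
  rw [← dat_eq hZ]

end

/-- If every finite linked structure with `-1 = 1` that is not totally degenerate has a value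
`c ≠ 0` such that `S/c` is linked, then all of them are of elementary type. -/
theorem asb_all (h : ∀ (V : Type) [AddCommGroup V] [Module (ZMod 2) V] [Finite V]
    (Z : V → V → Prop), LZ Z → (∃ a b, ¬ Z a b) → ∃ a b, ¬ Z a b ∧ LZ (ZC Z a b)) :
    ∀ (V : Type) [AddCommGroup V] [Module (ZMod 2) V] [Finite V] (Z : V → V → Prop), LZ Z →
      ETZ Z := by
  have key : ∀ n : ℕ, ∀ (V : Type) [AddCommGroup V] [Module (ZMod 2) V] [Finite V]
      (Z : V → V → Prop), LZ Z → Nat.card V = n → ETZ Z := by
    intro n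
    induction n using Nat.strong_induction_on with
    | _ n ih =>
      intro V _ _ _ Z0 hZ0 hn
      have hsm : Smaller V := by
        intro U _ _ _ ZU hU hc
        exact ih (Nat.card U) (by omega) U ZU hU rfl
      have key2 : ∀ m : ℕ, ∀ Z : V → V → Prop, LZ Z →
          Set.ncard {x : V × V | ¬ Z x.1 x.2} = m → ETZ Z := by
        intro m
        induction m using Nat.strong_induction_on with
        | _ m ih2 =>
          intro Z hZ hm
          by_cases hd : ∃ a b, ¬ Z a b
          · obtain ⟨a, b, hab, hP⟩ := h V Z hZ hd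
            refine asb hZ hsm hab hP (ih2 _ ?_ _ hP rfl)
            rw [← hm]
            apply Set.ncard_lt_ncard ?_ (Set.toFinite _)
            rw [Set.ssubset_iff_of_subset]
            · exact ⟨(a, b), hab, fun hh => hh (Or.inr (eqq_self hZ a b))⟩
            · intro x hx hh
              exact hx (Or.inl hh)
          · push Not at hd
            exact qrd_proof (qpr_proof qex_proof qis_proof) V Z hd
      exact key2 _ Z0 hZ0 rfl
  intro V _ _ _ Z hZ
  exact key _ V Z hZ rfl

end Pool.Agent.ASB
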