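import Pool.Agent.ASB.Core

/-!
THEOREM A*^B (note 1951), set valued core: the product case.
-/

set_option autoImplicit false

namespace Pool.Agent.ASB

open Pool.Agent.RFT Pool.Agent.AST
open Pool.Agent.Helper58.PLine (QData)

variable {V Q : Type} [AddCommGroup V] [Module (ZMod 2) V]

/-- The quotient by `c` is the product of the image and the kernel of the idempotent `p`. -/
structure Spl (D : QData V Q) (c : Q) (p : V →ₗ[ZMod 2] V) : Prop where
  dalt : ∀ x, D.q x x = D.z
  c0 : c ≠ D.z
  idem : ∀ v, p (p v) = p v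
  perp : ∀ v w, Zc D c (p v) (w + p w)
  ind : ∀ v w, Zc D c v w → Zc D c (p v) (p w)

section

variable {D : QData V Q} {c : Q} {p : V →ₗ[ZMod 2] V}

theorem Spl.p_co (h : Spl D c p) (w : V) : p (w + p w) = 0 := by
  rw [map_add, h.idem, self_add]

/-- `w = p w + (w + p w)` -/
theorem split_eq (w : V) : p w + (w + p w) = w := by
  rw [add_comm w, ← add_assoc, self_add, zero_add]

theorem Spl.ind' (h : Spl D c p) {v w : V} (hz : Zc D c v w) : Zc D c (v + p v) (w + p w) := by
  have h1 : Zc D c (p v) w := by
    have h2 := (h.ind v w hz).add (h.perp v w)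
    rw [split_eq] at h2
    exact h2
  exact (hz.add' h1).add (h.perp w v).symm

/-- the two parts are orthogonal -/
theorem Spl.comm (h : Spl D c p)
    (hP : ∀ φ : V →ₗ[ZMod 2] ZMod 2, ∃ x, ∀ v, Zc D c x v → φ v = 0) (v w : V) :
    D.q (p v) (w + p w) = D.z := by
  by_contra hne
  have hxy0 : D.q (p v) (w + p w) = c := (h.perp v w).resolve_left hne
  have px0 : p (p v) = p v := h.idem v
  have py0 : p (w + p w) = 0 := h.p_co w
  generalize hx : p v = x at hxy0 px0 hne
  generalize hy : w + p w = y at hxy0 py0 hne
  have hzx : D.q (x + y) x = c := by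
    rw [add_comm]
    exact c_add' (by rw [D.symm]; exact hxy0) (h.dalt x)
  have hnot : x ∉ D.ann (x + y) := by
    intro hh
    have hh' : D.q (x + y) x = D.z := hh
    exact h.c0 (hzx.symm.trans hh')
  obtain ⟨f, hf1, hf2⟩ := ETC.exists_dual_sep hnot
  have hfc : ∀ s, D.q (x + y) s = c → f s = 1 := by
    intro s hs
    have h1 : D.q (x + y) (s + x) = D.z := eq_c_add hs hzx
    have h2 := hf2 (s + x) h1
    rw [map_add, hf1] at h2
    rcases z2 (f s) with h3 | h3
    · rw [h3] at h2
      exact absurd h2 (by decide)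
    · exact h3
  obtain ⟨x0, hx0⟩ := hP (f ∘ₗ p)
  obtain ⟨y0, hy0⟩ := hP (f ∘ₗ (LinearMap.id + p))
  have hx' : ∀ s, Zc D c (p x0) s → p s = s → f s = 0 := by
    intro s hs hp
    have h1 : Zc D c (x0 + p x0) s := by
      have h2 := (h.perp s x0).symm
      rw [hp] at h2
      exact h2
    have h2 : Zc D c x0 s := by
      have h3 := hs.add' h1
      rw [split_eq] at h3
      exact h3
    have h3 := hx0 s h2
    rw [LinearMap.comp_apply, hp] at h3
    exact h3
  have hy' : ∀ s, Zc D c (y0 + p y0) s → p s = 0 → f s = 0 := by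
    intro s hs hp
    have h1 : Zc D c (p y0) s := by
      have h2 := h.perp y0 s
      rw [hp, add_zero] at h2
      exact h2
    have h2 : Zc D c y0 s := by
      have h3 := h1.add' hs
      rw [split_eq] at h3
      exact h3
    have h3 := hy0 s h2
    rw [LinearMap.comp_apply, LinearMap.add_apply, hp, add_zero] at h3
    exact h3
  have px' : p (p x0) = p x0 := h.idem x0
  have py' : p (y0 + p y0) = 0 := h.p_co y0
  generalize hX : p x0 = x' at px' hx'
  generalize hY : y0 + p y0 = y' at py' hy'
  have key : ∀ u t, (u = x' ∨ u = x + x') → (t = y' ∨ t = y + y') → ¬ InC D c (u + t) := by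
    rintro u t hu ht ⟨s, hs⟩
    obtain ⟨r, e1, e2⟩ := dlink D hzx hs
    have pu : p u = u := by
      rcases hu with rfl | rfl
      · exact px'
      · rw [map_add, px0, px']
    have pt : p t = 0 := by
      rcases ht with rfl | rfl
      · exact py'
      · rw [map_add, py0, py', add_zero]
    have a1 : Zc D c x (p r) := by
      have h1 := h.ind _ _ (Or.inr e1 : Zc D c (x + y) r)
      rw [map_add, px0, py0, add_zero] at h1
      exact h1
    have a2 : Zc D c y (r + p r) := by
      have h1 := h.ind' (Or.inr e1 : Zc D c (x + y) r)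
      rw [map_add, px0, py0, add_zero, add_comm x y, add_assoc, self_add, add_zero] at h1
      exact h1
    have b1 : Zc D c u (p r) := by
      have h1 := h.ind _ _ (Or.inr e2 : Zc D c (u + t) r)
      rw [map_add, pu, pt, add_zero] at h1
      exact h1
    have b2 : Zc D c t (r + p r) := by
      have h1 := h.ind' (Or.inr e2 : Zc D c (u + t) r)
      rw [map_add, pu, pt, add_zero, add_comm u t, add_assoc, self_add, add_zero] at h1
      exact h1
    have c1 : Zc D c x' (p r) := by
      rcases hu with rfl | rfl
      · exact b1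
      · have h1 := a1.add' b1
        rw [← add_assoc, self_add, zero_add] at h1
        exact h1
    have c2 : Zc D c y' (r + p r) := by
      rcases ht with rfl | rfl
      · exact b2
      · have h1 := a2.add' b2
        rw [← add_assoc, self_add, zero_add] at h1
        exact h1
    have d1 := hx' _ c1 (h.idem r)
    have d2 := hy' _ c2 (h.p_co r)
    have d3 := hfc r e1
    rw [← split_eq (p := p) r, map_add, d1, d2] at d3
    exact absurd d3 (by decide)
  have key2 : ∀ u, (u = x' ∨ u = x + x') → D.q y u = D.z := by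
    intro u hu
    by_contra hne'
    have pu : p u = u := by
      rcases hu with rfl | rfl
      · exact px'
      · rw [map_add, px0, px']
    have huy : Zc D c u y := by
      have h1 := h.perp u y
      rw [pu, py0, add_zero] at h1
      exact h1
    have hyu : D.q y u = c := huy.symm.resolve_left hne'
    have huy' : Zc D c u y' := by
      have h1 := h.perp u y'
      rw [pu, py', add_zero] at h1
      exact h1
    rcases huy' with e | e
    · apply key u (y + y') hu (Or.inr rfl)
      refine ⟨u, ?_⟩
      rw [add_comm]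
      exact c_add' (c_add' hyu (by rw [D.symm]; exact e)) (h.dalt u)
    · apply key u y' hu (Or.inl rfl)
      refine ⟨u, ?_⟩
      rw [add_comm]
      exact c_add' (by rw [D.symm]; exact e) (h.dalt u)
  have h1 := key2 x' (Or.inl rfl)
  have h2 := key2 (x + x') (Or.inr rfl)
  have h3 := dadd D h2 h1
  rw [add_assoc, self_add, add_zero] at h3
  exact hne (by rw [D.symm]; exact h3)

/-- `c` is a value on at most one of the two parts -/
theorem Spl.one_side [Finite V] (h : Spl D c p) (hr : R1 D)
    (hcomm : ∀ v w, D.q (p v) (w + p w) = D.z) :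
    (∀ a, p a = a → ¬ InC D c a) ∨ ∀ b, p b = 0 → ¬ InC D c b := by
  by_contra hcon
  push Not at hcon
  obtain ⟨⟨a0, pa0, ha0⟩, b0, pb0, t, ht⟩ := hcon
  have hb0 : D.q b0 (t + p t) = c := by
    have h1 := hcomm t b0
    rw [pb0, add_zero, D.symm] at h1
    exact c_add ht h1
  have n0 : ¬ InC D c 0 := by
    rintro ⟨v, hv⟩
    rw [dz'] at hv
    exact h.c0 hv.symm
  have key : ∀ a a', p a = a → p a' = a' → InC D c a → ¬ InC D c a' → InC D c (a + a') := by
    rintro a a' pa pa' ⟨s, hs⟩ ha'
    have e0 : D.q (b0 + a') (t + p t) = c := by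
      have h1 := hcomm a' t
      rw [pa'] at h1
      exact c_add' hb0 h1
    obtain ⟨r, e1, e2⟩ := dlink D hs e0
    have z1 : Zc D c a' (p r) := by
      have h1 := h.ind _ _ (Or.inr e2 : Zc D c (b0 + a') r)
      rw [map_add, pb0, pa', zero_add] at h1
      exact h1
    have z2 : D.q a' (p r) = D.z := z1.resolve_right fun hh => ha' ⟨_, hh⟩
    have z3 := hcomm a' r
    rw [pa'] at z3
    have z4 := dadd D z2 z3
    rw [split_eq] at z4
    exact ⟨r, c_add' e1 z4⟩
  let N : Submodule (ZMod 2) V :=
    { carrier := {a | p a = a ∧ ¬ InC D c a}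
      add_mem' := by
        rintro a a' ⟨pa, ha⟩ ⟨pa', ha'⟩
        have ps : p (a + a') = a + a' := by rw [map_add, pa, pa']
        refine ⟨ps, fun hh => ha ?_⟩
        have h1 := key (a + a') a' ps pa' hh ha'
        rw [add_assoc, self_add, add_zero] at h1
        exact h1
      zero_mem' := ⟨map_zero p, n0⟩
      smul_mem' := by
        rintro r a ⟨pa, ha⟩
        rcases z2 r with rfl | rfl
        · rw [zero_smul]
          exact ⟨map_zero p, n0⟩
        · rw [one_smul]
          exact ⟨pa, ha⟩ }
  have hN : a0 ∉ N := fun hh => hh.2 ha0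
  obtain ⟨f, hf1, hf2⟩ := ETC.exists_dual_sep hN
  refine rank_one_of (χ := f ∘ₗ p) (x0 := a0) hr h.c0 ?_ ?_
  · rw [LinearMap.comp_apply, pa0, hf1]
  · intro x hx
    rw [LinearMap.comp_apply] at hx
    have h1 : InC D c (p x) := by
      by_contra hh
      have h2 := hf2 (p x) (show p x ∈ N from ⟨h.idem x, hh⟩)
      rw [h2] at hx
      exact zero_ne_one hx
    obtain ⟨s, hs⟩ := h1
    have h2 : D.q (p x) (p s) = c := by
      have h3 := c_add hs (hcomm x s)
      rw [add_comm s (s + p s), add_comm s (p s), add_assoc, self_add, add_zero] at h3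
      exact h3
    have h3 : D.q (x + p x) (p s) = D.z := by
      rw [D.symm]
      exact hcomm s x
    have h4 := c_add' h2 h3
    rw [split_eq] at h4
    exact ⟨_, h4⟩

/-- the structure is a product -/
theorem Spl.prod [Finite V] (h : Spl D c p) (hr : R1 D)
    (hP : ∀ φ : V →ₗ[ZMod 2] ZMod 2, ∃ x, ∀ v, Zc D c x v → φ v = 0) (a b : V) :
    D.q a b = D.z ↔ D.q (p a) (p b) = D.z ∧ D.q (a + p a) (b + p b) = D.z := by
  have hcomm := h.comm hP
  have hcomm' : ∀ v w, D.q (w + p w) (p v) = D.z := fun v w => by rw [D.symm, hcomm]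
  constructor
  · intro h0
    have z1 := h.ind _ _ (Or.inl h0 : Zc D c a b)
    have z2 := h.ind' (Or.inl h0 : Zc D c a b)
    rcases h.one_side hr hcomm with hs | hs
    · have e1 : D.q (p a) (p b) = D.z := z1.resolve_right fun hh => hs _ (h.idem a) ⟨_, hh⟩
      refine ⟨e1, ?_⟩
      have e2 : D.q (p a) b = D.z := by
        have h1 := dadd D e1 (hcomm a b)
        rw [split_eq] at h1
        exact h1
      exact dadd D (dadd' D h0 e2) (hcomm' b a)
    · have e1 : D.q (a + p a) (b + p b) = D.z :=
        z2.resolve_right fun hh => hs _ (h.p_co a) ⟨_, hh⟩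
      refine ⟨?_, e1⟩
      have e2 : D.q (a + p a) b = D.z := by
        have h1 := dadd D (hcomm' b a) e1
        rw [split_eq] at h1
        exact h1
      have e3 : D.q (p a) b = D.z := by
        have h1 := dadd' D h0 e2
        rw [← add_assoc, self_add, zero_add] at h1
        exact h1
      have h1 := dadd D e3 (hcomm a b)
      rw [← add_assoc, self_add, zero_add] at h1
      exact h1
  · rintro ⟨e1, e2⟩
    have h1 : D.q (p a) b = D.z := by
      have h2 := dadd D e1 (hcomm a b)
      rw [split_eq] at h2
      exact h2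
    have h2 : D.q (a + p a) b = D.z := by
      have h3 := dadd D (hcomm' b a) e2
      rw [split_eq] at h3
      exact h3
    have h3 := dadd' D h1 h2
    rw [split_eq] at h3
    exact h3

end

end Pool.Agent.ASB
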