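import Pool.Agent.ASB.Bridge
import Pool.Agent.AST.TOP

/-!
THEOREM A*^B (note 1951) for quaternionic structures with `-1 = 1`.
-/

set_option autoImplicit false

namespace Pool.Agent.ASB

open QS Pool.Agent.ETG Pool.Agent.RFN Pool.Agent.AST

/-- The quotient of `S` by the quaternion `q (a, b)` is linked: `q (x, y) ∈ {0, q (a, b)}` is the
zero relation of a linked structure. -/
def PrimeQ (S : QStruct) (a b : S.G) : Prop :=
  S.q a b ≠ S.zero ∧ LZ (ZC (ZS S) (Additive.ofMul a) (Additive.ofMul b))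

/-- Theorem A*^B for structures -/
theorem top_asb (S : QStruct) [Finite S.G] (hneg : S.neg = 1)
    (hT : ∀ T : QStruct, Finite T.G → T.neg = 1 → Nat.card T.G < Nat.card S.G → ElemType T)
    (a b : S.G) (h : PrimeQ S a b)
    (hE : ∀ T : QStruct, QOf (ZC (ZS S) (Additive.ofMul a) (Additive.ofMul b)) T → ElemType T) :
    ElemType S :=
  asb (V := Additive S.G) (lzs S hneg) (smaller S hT) (fun h0 => h.1 h0) h.2 hE S (qof S hneg)

/-- If every finite structure with `-1 = 1` that is not totally degenerate has a prime quaternion,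
then all finite structures with `-1 = 1` are of elementary type. -/
theorem top_asb_all (h : ∀ S : QStruct, Finite S.G → S.neg = 1 → (∃ a b, S.q a b ≠ S.zero) →
    ∃ a b, PrimeQ S a b) : ∀ S : QStruct, Finite S.G → S.neg = 1 → ElemType S := by
  intro S hf hneg
  refine asb_all ?_ (Additive S.G) (ZS S) (lzs S hneg) S (qof S hneg)
  intro V _ _ _ Z hZ hd
  obtain ⟨T, hT, e, he⟩ := qex_proof V Z hZ
  have hTf : Finite T.G := Finite.of_equiv _ e.toEquiv
  obtain ⟨a0, b0, hab0⟩ := hd
  obtain ⟨a, b, h1, h2⟩ := h T hTf hT ⟨e (Multiplicative.ofAdd a0), e (Multiplicative.ofAdd b0),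
    fun h0 => hab0 ((he a0 b0).1 h0)⟩
  -- transport along `e`
  let f : V ≃+ Additive T.G :=
    { toFun := fun v => Additive.ofMul (e (Multiplicative.ofAdd v))
      invFun := fun g => Multiplicative.toAdd (e.symm (Additive.toMul g))
      left_inv := fun v => by simp
      right_inv := fun g => by simp
      map_add' := fun v w => by
        rw [ofAdd_add, map_mul]
        rfl }
  have hf : ∀ x y : V, ZS T (f x) (f y) ↔ Z x y := fun x y => he x y
  have heq : ∀ x y u v : V, EqQ (ZS T) (f x) (f y) (f u) (f v) ↔ EqQ Z x y u v := by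
    intro x y u v
    constructor
    · rintro ⟨s, e1, e2, e3⟩
      obtain ⟨s, rfl⟩ := f.surjective s
      rw [← map_add, hf] at e1 e2 e3
      exact ⟨s, e1, e2, e3⟩
    · rintro ⟨s, e1, e2, e3⟩
      refine ⟨f s, ?_, ?_, ?_⟩
      · rw [← map_add, hf]
        exact e1
      · rw [← map_add, hf]
        exact e2
      · rw [← map_add, hf]
        exact e3
  obtain ⟨a', ha'⟩ := f.surjective (Additive.ofMul a)
  obtain ⟨b', hb'⟩ := f.surjective (Additive.ofMul b)
  rw [← ha', ← hb'] at h2
  have hzc : ∀ x y : V, ZC (ZS T) (f a') (f b') (f x) (f y) ↔ ZC Z a' b' x y := by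
    intro x y
    unfold ZC
    rw [hf, heq]
  have heq2 : ∀ x y u v : V, EqQ (ZC (ZS T) (f a') (f b')) (f x) (f y) (f u) (f v) ↔
      EqQ (ZC Z a' b') x y u v := by
    intro x y u v
    constructor
    · rintro ⟨s, e1, e2, e3⟩
      obtain ⟨s, rfl⟩ := f.surjective s
      rw [← map_add, hzc] at e1 e2 e3
      exact ⟨s, e1, e2, e3⟩
    · rintro ⟨s, e1, e2, e3⟩
      refine ⟨f s, ?_, ?_, ?_⟩
      · rw [← map_add, hzc]
        exact e1
      · rw [← map_add, hzc]
        exact e2
      · rw [← map_add, hzc]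
        exact e3
  refine ⟨a', b', fun h0 => h1 ?_, ?_⟩
  · have h3 := (hf a' b').2 h0
    rw [ha', hb'] at h3
    exact h3
  · refine ⟨fun x y hxy => ?_, fun x => ?_, fun x y z hxy hxz => ?_, fun x => ?_, ?_⟩
    · rw [← hzc] at hxy ⊢
      exact h2.symm _ _ hxy
    · rw [← hzc, map_zero]
      exact h2.zero _
    · rw [← hzc] at hxy hxz ⊢
      rw [map_add]
      exact h2.add _ _ _ hxy hxz
    · rw [← hzc]
      exact h2.alt _
    · intro x y u v x' y' e1 e2
      rw [← heq2] at e1 e2 ⊢
      exact h2.trans _ _ _ _ _ _ e1 e2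

end Pool.Agent.ASB
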